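import Pool.Agent.Q190.QM.W

set_option autoImplicit false
set_option linter.unusedSectionVars false
set_option linter.unusedVariables false

/-! # Project QM: volumes of products, volumes in one variable -/

namespace Pool.Agent.Q190.QM

open MvPolynomial Pool.Agent.W428.MOT Pool.Agent.TH192.MT Pool.Agent.TH192.DT Pool.Agent.Q49.CO
open Pool.Agent.W574.SM (chart chartI)
open Pool.Agent.Q57.QM

/-- power series over the algebraic closure -/
abbrev PS : Type := PowerSeries (AlgebraicClosure ℂ)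

/-- a condition on one power series -/
abbrev C1 (P : PS → Prop) : Arc ℂ (Fin 1) → Prop := fun γ => P (γ 0)

theorem cyl_of1 {P : PS → Prop} {q : ℕ} (h : Cyl (C1 P) q) (i : Fin 2) :
    Cyl (fun γ : Arc ℂ (Fin 2) => P (γ i)) q where
  det := fun γ δ hγ => h.det (fun _ => γ i) (fun _ => δ i) fun _ => hγ i
  con := h.con.preimage (fun (z : Pt ℂ (Fin 2 × Fin (q + 1))) (x : Fin 1 × Fin (q + 1)) =>
      z (i, x.2)) fun _ => IsPF.coord _

variable {R : Type} [CommRing R] (M : Meas ℂ R) {v : R} (hv : M.L * v = 1)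

omit hv in
theorem chi_fin2 {q : ℕ} {P0 P1 : PS → Prop} (h0 : Cyl (C1 P0) q) (h1 : Cyl (C1 P1) q) :
    M.χ _ {z : Pt ℂ (Fin 2 × Fin (q + 1)) | P0 (ar z 0) ∧ P1 (ar z 1)} =
      M.χ _ {z : Pt ℂ (Fin 1 × Fin (q + 1)) | P0 (ar z 0)} *
        M.χ _ {z : Pt ℂ (Fin 1 × Fin (q + 1)) | P1 (ar z 0)} := by
  rw [← M.prod _ _ h0.con h1.con]
  have hc := ((cyl_of1 h0 0).and (cyl_of1 h1 1)).con
  have hc' : Constr {z : Pt ℂ ((Fin 1 × Fin (q + 1)) ⊕ (Fin 1 × Fin (q + 1))) |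
      (fun i => z (Sum.inl i)) ∈ {z : Pt ℂ (Fin 1 × Fin (q + 1)) | P0 (ar z 0)} ∧
      (fun i => z (Sum.inr i)) ∈ {z : Pt ℂ (Fin 1 × Fin (q + 1)) | P1 (ar z 0)}} :=
    Constr.and (h0.con.preimage (fun (z : Pt ℂ ((Fin 1 × Fin (q + 1)) ⊕ (Fin 1 × Fin (q + 1)))) i =>
      z (Sum.inl i)) fun _ => IsPF.coord _)
      (h1.con.preimage (fun (z : Pt ℂ ((Fin 1 × Fin (q + 1)) ⊕ (Fin 1 × Fin (q + 1)))) i =>
      z (Sum.inr i)) fun _ => IsPF.coord _)
  refine M.iso _ _ hc hc' (fun z => Sum.elim (fun x => z (0, x.2)) fun x => z (1, x.2))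
    (fun w x => if x.1 = 0 then w (Sum.inl (0, x.2)) else w (Sum.inr (0, x.2)))
    (regularOn_poly ?_ _) (regularOn_poly ?_ _) ?_ ?_ ?_ ?_
  · rintro (i | i)
    · exact IsPF.coord _
    · exact IsPF.coord _
  · rintro ⟨i, j⟩
    by_cases h : i = 0
    · simp only [h, if_true]
      exact IsPF.coord _
    · simp only [h, if_false]
      exact IsPF.coord _
  · intro z hz
    exact hz
  · intro w hw
    exact hw
  · intro z _
    funext ⟨i, j⟩
    fin_cases i
    · simp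
    · simp
  · intro w _
    funext x
    rcases x with ⟨i, j⟩ | ⟨i, j⟩
    · rw [Subsingleton.elim i 0]
      simp
    · rw [Subsingleton.elim i 0]
      simp

include hv

theorem vo_prod {P0 P1 : PS → Prop} {q q' : ℕ} (h0 : Cyl (C1 P0) q) (h1 : Cyl (C1 P1) q') :
    vo M v (fun γ : Arc ℂ (Fin 2) => P0 (γ 0) ∧ P1 (γ 1)) = vo M v (C1 P0) * vo M v (C1 P1) := by
  have h0' := h0.mono (le_max_left q q')
  have h1' := h1.mono (le_max_right q q')
  rw [vo_eq M hv h0', vo_eq M hv h1', vo_eq M hv ((cyl_of1 h0' 0).and (cyl_of1 h1' 1))]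
  unfold vq
  have h2 := chi_fin2 M h0' h1'
  change M.χ _ {z : Pt ℂ (Fin 2 × Fin (max q q' + 1)) | P0 (ar z 0) ∧ P1 (ar z 1)} * _ =
    M.χ _ {z : Pt ℂ (Fin 1 × Fin (max q q' + 1)) | P0 (ar z 0)} * _ *
      (M.χ _ {z : Pt ℂ (Fin 1 × Fin (max q q' + 1)) | P1 (ar z 0)} * _)
  rw [h2, Fintype.card_fin, Fintype.card_fin]
  ring

omit hv in
/-- the class of a point -/
theorem chi_pt {ι : Type} [Fintype ι] (a : ι → ℂ) :
    M.χ ι {z : Pt ℂ ι | ∀ i, z i = algebraMap ℂ _ (a i)} = 1 := by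
  rw [← M.point (ι := Empty)]
  refine M.iso _ _ ?_ Constr.univ (fun _ i => i.elim) (fun _ i => algebraMap ℂ _ (a i))
    (fun i => i.elim) (fun i => (IsPF.const _).isRF _) (fun _ _ => trivial) (fun _ _ _ => rfl) ?_ ?_
  · exact Constr.all fun i => Constr.eq (IsPF.coord i) (IsPF.const _)
  · intro z hz
    funext i
    exact (hz i).symm
  · intro w _
    funext i
    exact i.elim

theorem vol1_vn (k : ℕ) : vo M v (C1 (Vn k)) = v ^ k := by
  rcases k with _ | q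
  · rw [pow_zero, ← vo_true (σ := Fin 1) M hv]
    refine vo_congr M fun γ => ?_
    exact ⟨fun _ => trivial, fun _ j hj => absurd hj (Nat.not_lt_zero j)⟩
  · rw [vo_eq M hv (Cyl.vnX (K := ℂ) (σ := Fin 1) 0 (le_refl (q + 1)))]
    unfold vq
    have h1 : {z : Pt ℂ (Fin 1 × Fin (q + 1)) | Vn (q + 1) (ar z 0)} =
        {z | ∀ i, z i = algebraMap ℂ _ 0} := by
      ext z
      change Vn (q + 1) (ar z 0) ↔ ∀ i, z i = algebraMap ℂ _ 0
      rw [map_zero]
      constructor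
      · rintro h ⟨i, j⟩
        have h2 := h j j.2
        rw [coeff_ar, dif_pos j.2] at h2
        rw [Subsingleton.elim i 0]
        exact h2
      · intro h j hj
        rw [coeff_ar, dif_pos hj]
        exact h _
    rw [h1, chi_pt, one_mul, Fintype.card_fin, one_mul]

theorem vol1_ord (k : ℕ) :
    vo M v (C1 fun u => Vn k u ∧ PowerSeries.coeff k u ≠ 0) = (M.L - 1) * v ^ (k + 1) := by
  have h1 := vo_split M hv (Cyl.vnX (K := ℂ) (σ := Fin 1) 0 (show k ≤ k + 1 by omega))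
    (Cyl.c0 (K := ℂ) (σ := Fin 1) 0 (le_refl k))
  have h2 : vo M v (fun γ : Arc ℂ (Fin 1) => Vn k (γ 0) ∧ PowerSeries.coeff k (γ 0) = 0) =
      vo M v (C1 (Vn (k + 1))) := by
    refine vo_congr M fun γ => ?_
    constructor
    · rintro ⟨h3, h4⟩ j hj
      rcases Nat.lt_succ_iff_lt_or_eq.1 hj with h5 | rfl
      · exact h3 j h5
      · exact h4
    · intro h3
      exact ⟨fun j hj => h3 j (by omega), h3 k (by omega)⟩
  have h3 : vo M v (fun γ : Arc ℂ (Fin 1) => Vn k (γ 0)) = v ^ k := vol1_vn M hv k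
  rw [h2, h3, vol1_vn M hv (k + 1)] at h1
  change vo M v (fun γ : Arc ℂ (Fin 1) => Vn k (γ 0) ∧ ¬ PowerSeries.coeff k (γ 0) = 0) = _
  have h4 : v ^ (k + 1) = v ^ k * v := pow_succ _ _
  rw [h4] at h1 ⊢
  linear_combination (-1 : R) * h1 + (-(v ^ k)) * hv

omit hv in
theorem cyl_at (c : ℂ) : Cyl (C1 fun u => PowerSeries.coeff 0 u = algebraMap ℂ _ c) 0 := by
  refine (Cyl.of_constr (q := 0) (S := {z : Pt ℂ (Fin 1 × Fin (0 + 1)) |
    z (0, 0) = algebraMap ℂ _ c}) (Constr.eq (IsPF.coord _) (IsPF.const _))).congr fun γ => ?_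
  exact Iff.rfl

theorem vol1_at (c : ℂ) :
    vo M v (C1 fun u => PowerSeries.coeff 0 u = algebraMap ℂ _ c) = v := by
  rw [vo_eq M hv (cyl_at c)]
  unfold vq
  have h1 : {z : Pt ℂ (Fin 1 × Fin (0 + 1)) | PowerSeries.coeff 0 (ar z 0) = algebraMap ℂ _ c} =
      {z | ∀ i, z i = algebraMap ℂ _ c} := by
    ext z
    change PowerSeries.coeff 0 (ar z 0) = algebraMap ℂ _ c ↔ ∀ i, z i = algebraMap ℂ _ c
    rw [coeff_ar_zero]
    constructor
    · rintro h ⟨i, j⟩
      rw [Subsingleton.elim i 0, Fin.fin_one_eq_zero j]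
      exact h
    · intro h
      exact h _
  rw [h1, chi_pt, one_mul, Fintype.card_fin]
  simp

omit hv in
theorem cyl_off (S : Finset ℂ) :
    Cyl (C1 fun u => ∀ c ∈ S, PowerSeries.coeff 0 u ≠ algebraMap ℂ _ c) 0 := by
  refine (Cyl.exFinset S fun c _ => cyl_at c).not.congr fun γ => ?_
  constructor
  · intro h c hc h'
    exact h ⟨c, hc, h'⟩
  · rintro h ⟨c, hc, h'⟩
    exact h c hc h'

theorem vol1_off (S : Finset ℂ) :
    vo M v (C1 fun u => ∀ c ∈ S, PowerSeries.coeff 0 u ≠ algebraMap ℂ _ c) =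
      (M.L - S.card) * v := by
  have h1 := vo_split M hv (Cyl.const (K := ℂ) (σ := Fin 1) True 0)
    (Cyl.exFinset S fun c _ => cyl_at c)
  have h2 := vo_sum M hv S (P := fun c : ℂ => C1 fun u => PowerSeries.coeff 0 u = algebraMap ℂ _ c)
    (fun c _ => cyl_at c) (fun a _ b _ hab γ ha hb => by
      refine hab ((algebraMap ℂ (AlgebraicClosure ℂ)).injective ?_)
      exact ha.symm.trans hb)
  simp only [vol1_at M hv, Finset.sum_const, nsmul_eq_mul] at h2
  have h3 : vo M v (fun γ : Arc ℂ (Fin 1) => True ∧ ∃ c ∈ S,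
      PowerSeries.coeff 0 (γ 0) = algebraMap ℂ _ c) = S.card * v := by
    rw [← h2]
    refine vo_congr M fun γ => ?_
    rw [true_and]
  have h4 : vo M v (fun γ : Arc ℂ (Fin 1) => True ∧ ¬ ∃ c ∈ S,
      PowerSeries.coeff 0 (γ 0) = algebraMap ℂ _ c) =
      vo M v (C1 fun u => ∀ c ∈ S, PowerSeries.coeff 0 u ≠ algebraMap ℂ _ c) := by
    refine vo_congr M fun γ => ?_
    constructor
    · rintro ⟨_, h⟩ c hc h'
      exact h ⟨c, hc, h'⟩
    · rintro h
      exact ⟨trivial, fun ⟨c, hc, h'⟩ => h c hc h'⟩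
  rw [vo_true M hv] at h1
  have h5 : (1 : R) = S.card * v + vo M v (C1 fun u => ∀ c ∈ S,
      PowerSeries.coeff 0 u ≠ algebraMap ℂ _ c) := by
    rw [← h4, ← h3]
    exact h1
  linear_combination (-1 : R) * h5 + (-1 : R) * hv

end Pool.Agent.Q190.QM
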