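import Pool.Agent.Q190.QM.V1

set_option autoImplicit false
set_option linter.unusedSectionVars false
set_option linter.unusedVariables false

/-! # Project QM, job 6369: the change of variables `(x, y) ↦ (x, x (c + y))` -/

namespace Pool.Agent.Q190.QM

open MvPolynomial Pool.Agent.W428.MOT Pool.Agent.TH192.MT Pool.Agent.TH192.DT Pool.Agent.Q49.CO
open Pool.Agent.W574.SM (chart chartI)
open Pool.Agent.Q57.QM

theorem cg_dvd {F : Type} [Field F] {q : ℕ} {a b : PowerSeries F} :
    Cg q a b ↔ PowerSeries.X ^ (q + 1) ∣ a - b := by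
  rw [PowerSeries.X_pow_dvd_iff]
  unfold Cg
  constructor
  · intro h k hk
    rw [map_sub, h k (by omega), sub_self]
  · intro h k hk
    have := h k (by omega)
    rw [map_sub] at this
    exact sub_eq_zero.1 this

/-- the power series divided by `X ^ k` -/
noncomputable def sh (k : ℕ) (u : PS) : PS := PowerSeries.mk fun j => PowerSeries.coeff (j + k) u

theorem coeff_sh (k j : ℕ) (u : PS) : PowerSeries.coeff j (sh k u) = PowerSeries.coeff (j + k) u := by
  unfold sh
  rw [PowerSeries.coeff_mk]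

theorem X_mul_sh {k : ℕ} {u : PS} (h : Vn k u) : PowerSeries.X ^ k * sh k u = u := by
  obtain ⟨w, rfl⟩ := vn_iff.1 h
  congr 1
  ext j
  rw [coeff_sh, PowerSeries.coeff_X_pow_mul]

theorem sh_X_mul (k : ℕ) (w : PS) : sh k (PowerSeries.X ^ k * w) = w := by
  ext j
  rw [coeff_sh, PowerSeries.coeff_X_pow_mul]

/-- the constant -/
noncomputable def cc (c : ℂ) : PS := PowerSeries.C (algebraMap ℂ (AlgebraicClosure ℂ) c)

theorem psi0 (c : ℂ) (δ : Arc ℂ (Fin 2)) : psi c δ 0 = δ 0 := rfl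

theorem psi1 (c : ℂ) (δ : Arc ℂ (Fin 2)) : psi c δ 1 = δ 0 * (cc c + δ 1) := rfl

theorem cg_psi (c : ℂ) {q : ℕ} {δ δ' : Arc ℂ (Fin 2)} (h : ∀ i, Cg q (δ i) (δ' i)) (i : Fin 2) :
    Cg q (psi c δ i) (psi c δ' i) := by
  fin_cases i
  · exact h 0
  · change Cg q (δ 0 * (cc c + δ 1)) (δ' 0 * (cc c + δ' 1))
    refine Pool.Agent.Q57.MC.cg_mul (h 0) fun k hk => ?_
    rw [map_add, map_add, h 1 k hk]

theorem pf_psi (c : ℂ) {q : ℕ} (x : Fin 2 × Fin (q + 1)) :
    IsPF (fun z : Pt ℂ (Fin 2 × Fin (q + 1)) => jet q (psi c (ar z)) x) := by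
  have h0 : ∀ i : Fin 2, IsPA fun z : Pt ℂ (Fin 2 × Fin (q + 1)) => ar z i := by
    intro i j
    have h1 : (fun z : Pt ℂ (Fin 2 × Fin (q + 1)) => PowerSeries.coeff j (ar z i)) =
        fun z => if h : j < q + 1 then z (i, ⟨j, h⟩) else 0 := by
      funext z
      rw [coeff_ar]
    rw [h1]
    by_cases h : j < q + 1
    · simp only [h, dif_pos]
      exact IsPF.coord _
    · simp only [h, dif_neg, not_false_eq_true]
      exact IsPF.zero
  obtain ⟨i, j⟩ := x
  have h1 : IsPA fun z : Pt ℂ (Fin 2 × Fin (q + 1)) => psi c (ar z) i := by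
    fin_cases i
    · exact h0 0
    · exact (h0 0).mul ((IsPA.C (IsPF.const c)).add (h0 1))
  exact h1 j

theorem cyl_psi {P : Arc ℂ (Fin 2) → Prop} {q : ℕ} (hP : Cyl P q) (c : ℂ) :
    Cyl (fun δ => P (psi c δ)) q where
  det := fun γ δ h => hP.det _ _ fun i => cg_psi c h i
  con := by
    have h1 := hP.con.preimage (fun z : Pt ℂ (Fin 2 × Fin (q + 1)) => jet q (psi c (ar z)))
      fun i => pf_psi c i
    have h2 : {z : Pt ℂ (Fin 2 × Fin (q + 1)) | P (psi c (ar z))} =
        {z | jet q (psi c (ar z)) ∈ {z : Pt ℂ (Fin 2 × Fin (q + 1)) | P (ar z)}} := by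
      ext z
      exact hP.det _ _ fun i => cg_jet q _ i
    rw [h2]
    exact h1

/-- the unit part of `y / x - c` -/
noncomputable def wv (c : ℂ) (k : ℕ) (γ : Arc ℂ (Fin 2)) : PS :=
  sh k (γ 1) * (sh k (γ 0))⁻¹ - cc c

/-- the inverse on the jets -/
noncomputable def gi (c : ℂ) (k m : ℕ) (z : Pt ℂ (Fin 2 × Fin (m + 1))) :
    Pt ℂ (Fin 2 × Fin (m + 1)) := fun x =>
  if x.1 = 0 then z (0, x.2) else
    if (x.2 : ℕ) ≤ m - k then PowerSeries.coeff (x.2 : ℕ) (wv c k (ar z)) else 0

theorem ar_gi0 (c : ℂ) (k m : ℕ) (z : Pt ℂ (Fin 2 × Fin (m + 1))) :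
    ar (gi c k m z) 0 = ar z 0 := by
  ext j
  rw [coeff_ar, coeff_ar]
  rfl

theorem ar_gi1 (c : ℂ) {k m : ℕ} (z : Pt ℂ (Fin 2 × Fin (m + 1))) :
    Cg (m - k) (ar (gi c k m z) 1) (wv c k (ar z)) := by
  intro j hj
  rw [coeff_ar, dif_pos (by omega)]
  unfold gi
  rw [if_neg (by simp)]
  exact if_pos hj

theorem key_g (c : ℂ) {k m : ℕ} (hk : k ≤ m) (z : Pt ℂ (Fin 2 × Fin (m + 1)))
    (h0 : Vn k (ar z 0)) (h0' : PowerSeries.coeff k (ar z 0) ≠ 0) (h1 : Vn k (ar z 1)) (i : Fin 2) :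
    Cg m (psi c (ar (gi c k m z)) i) (ar z i) := by
  fin_cases i
  · intro j _
    change PowerSeries.coeff j (ar (gi c k m z) 0) = PowerSeries.coeff j (ar z 0)
    rw [ar_gi0]
  · change Cg m (ar (gi c k m z) 0 * (cc c + ar (gi c k m z) 1)) (ar z 1)
    rw [ar_gi0, cg_dvd]
    have h2 := cg_dvd.1 (ar_gi1 c (k := k) z)
    obtain ⟨d, hd⟩ := h2
    have h3 : ar (gi c k m z) 1 = wv c k (ar z) + PowerSeries.X ^ (m - k + 1) * d := by
      rw [← hd]
      ring
    have h4 : PowerSeries.constantCoeff (sh k (ar z 0)) ≠ 0 := by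
      rw [← PowerSeries.coeff_zero_eq_constantCoeff_apply, coeff_sh, Nat.zero_add]
      exact h0'
    have h5 := PowerSeries.inv_mul_cancel _ h4
    have h6 := X_mul_sh h0
    have h7 := X_mul_sh h1
    have h8 : (PowerSeries.X : PS) ^ k * PowerSeries.X ^ (m - k + 1) = PowerSeries.X ^ (m + 1) := by
      rw [← pow_add]
      congr 1
      omega
    refine ⟨sh k (ar z 0) * d, ?_⟩
    rw [h3]
    unfold wv
    rw [← h8]
    have h9 : ar z 0 * (cc c + (sh k (ar z 1) * (sh k (ar z 0))⁻¹ - cc c +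
        PowerSeries.X ^ (m - k + 1) * d)) - ar z 1 = (PowerSeries.X ^ k * sh k (ar z 0)) *
        (cc c + (sh k (ar z 1) * (sh k (ar z 0))⁻¹ - cc c +
        PowerSeries.X ^ (m - k + 1) * d)) - PowerSeries.X ^ k * sh k (ar z 1) := by
      rw [h6, h7]
    rw [h9]
    linear_combination (PowerSeries.X ^ k * sh k (ar z 1)) * h5

/-- the quotient of the values of `psi` -/
theorem key_f (c : ℂ) {k m : ℕ} (hk : k ≤ m) (w : Pt ℂ (Fin 2 × Fin (m + 1)))
    (h0 : Vn k (ar w 0)) (h0' : PowerSeries.coeff k (ar w 0) ≠ 0) :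
    Cg (m - k) (wv c k (ar (jet m (psi c (ar w))))) (ar w 1) := by
  have h1 : ar (jet m (psi c (ar w))) 0 = ar w 0 := by
    ext j
    rw [coeff_ar, coeff_ar]
    by_cases h : j < m + 1
    · rw [dif_pos h, dif_pos h]
      change PowerSeries.coeff j (ar w 0) = _
      rw [coeff_ar, dif_pos h]
    · rw [dif_neg h, dif_neg h]
  have h2 : Cg m (ar (jet m (psi c (ar w))) 1) (ar w 0 * (cc c + ar w 1)) := by
    have := cg_symm (cg_jet m (psi c (ar w)) 1)
    exact this
  have h3 : Cg (m - k) (sh k (ar (jet m (psi c (ar w))) 1)) (sh k (ar w 0) * (cc c + ar w 1)) := by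
    intro j hj
    rw [coeff_sh, h2 (j + k) (by omega), ← X_mul_sh h0, mul_assoc, PowerSeries.coeff_X_pow_mul,
      sh_X_mul]
  have h4 : PowerSeries.constantCoeff (sh k (ar w 0)) ≠ 0 := by
    rw [← PowerSeries.coeff_zero_eq_constantCoeff_apply, coeff_sh, Nat.zero_add]
    exact h0'
  have h5 := PowerSeries.mul_inv_cancel _ h4
  unfold wv
  rw [h1]
  have h6 := Pool.Agent.Q57.MC.cg_mul (b := (sh k (ar w 0))⁻¹) (b' := (sh k (ar w 0))⁻¹) h3
    (fun _ _ => rfl)
  intro j hj
  rw [map_sub, h6 j hj, ← map_sub]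
  congr 1
  linear_combination (cc c + ar w 1) * h5

theorem qm_blowvol : StBlowVol := by
  classical
  intro R _ M v hv P q k c hP hPk
  refine ⟨cyl_psi hP c, ?_⟩
  set m := q + k with hm
  have hPm : Cyl P m := hP.mono (by omega)
  have hPm' : Cyl (fun δ => P (psi c δ)) m := cyl_psi hPm c
  have hkm : k ≤ m := by omega
  rw [vo_eq M hv hPm, vo_eq M hv hPm']
  unfold vq
  rw [Fintype.card_fin]
  set S2 : Set (Pt ℂ (Fin 2 × Fin (m + 1))) := {z | P (psi c (ar z))} with hS2
  have hP2 : ∀ z : Pt ℂ (Fin 2 × Fin (m + 1)), z ∈ S2 →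
      Vn k (ar z 0) ∧ PowerSeries.coeff k (ar z 0) ≠ 0 := by
    intro z hz
    obtain ⟨h1, h2, _⟩ := hPk _ hz
    exact ⟨h1, h2⟩
  -- the free coordinates
  set F1 : Finset (Fin 2 × Fin (m + 1)) :=
    Finset.univ.filter fun x => x.1 = 1 ∧ m - k < (x.2 : ℕ) with hF1
  have hmF : ∀ x : Fin 2 × Fin (m + 1), x ∈ F1 ↔ x.1 = 1 ∧ m - k < (x.2 : ℕ) := by
    intro x
    rw [hF1, Finset.mem_filter]
    exact ⟨fun h => h.2, fun h => ⟨Finset.mem_univ _, h⟩⟩
  have hcard : F1.card = k := by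
    have h1 : F1 = (Finset.univ : Finset (Fin k)).map ⟨fun j : Fin k =>
        ((1 : Fin 2), (⟨m - k + 1 + j, by omega⟩ : Fin (m + 1))), by
          intro a b h
          have h2 := congrArg (fun x : Fin 2 × Fin (m + 1) => (x.2 : ℕ)) h
          simp only at h2
          exact Fin.ext (by omega)⟩ := by
      ext x
      rw [hmF, Finset.mem_map]
      constructor
      · rintro ⟨h1, h2⟩
        refine ⟨⟨(x.2 : ℕ) - (m - k + 1), by omega⟩, Finset.mem_univ _, ?_⟩
        refine Prod.ext h1.symm (Fin.ext ?_)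
        change m - k + 1 + ((x.2 : ℕ) - (m - k + 1)) = _
        omega
      · rintro ⟨j, _, rfl⟩
        refine ⟨rfl, ?_⟩
        change m - k < m - k + 1 + (j : ℕ)
        omega
    rw [h1, Finset.card_map, Finset.card_univ, Fintype.card_fin]
  have hfree := Pool.Agent.W417.MT.Free.main M S2 ∅ F1 (fun _ => 0)
    (Finset.disjoint_left.2 fun x hx _ => absurd hx (Finset.notMem_empty x)) hPm'.con (by
      intro z w hzw hz
      obtain ⟨h1, h2⟩ := hP2 z hz
      have h3 : ar w 0 = ar z 0 := by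
        ext j
        rw [coeff_ar, coeff_ar]
        split_ifs with h
        · refine hzw _ (Finset.notMem_empty _) fun h4 => ?_
          have h5 := ((hmF _).1 h4).1
          exact absurd h5 (by simp)
        · rfl
      have h4 : Cg (m - k) (ar w 1) (ar z 1) := by
        intro j hj
        rw [coeff_ar, coeff_ar, dif_pos (by omega), dif_pos (by omega)]
        refine hzw _ (Finset.notMem_empty _) fun h4 => ?_
        have h5 := ((hmF _).1 h4).2
        simp only at h5
        omega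
      refine (hPm.det (psi c (ar w)) (psi c (ar z)) fun i => ?_).2 hz
      fin_cases i
      · intro j _
        change PowerSeries.coeff j (ar w 0) = PowerSeries.coeff j (ar z 0)
        rw [h3]
      · change Cg m (ar w 0 * (cc c + ar w 1)) (ar z 0 * (cc c + ar z 1))
        rw [h3, cg_dvd]
        obtain ⟨d, hd⟩ := cg_dvd.1 h4
        have h8 : (PowerSeries.X : PS) ^ k * PowerSeries.X ^ (m - k + 1) =
            PowerSeries.X ^ (m + 1) := by
          rw [← pow_add]
          congr 1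
          omega
        refine ⟨sh k (ar z 0) * d, ?_⟩
        rw [← h8]
        have h9 : ar z 0 * (cc c + ar w 1) - ar z 0 * (cc c + ar z 1) =
            ar z 0 * (ar w 1 - ar z 1) := by ring
        rw [h9, hd]
        nth_rewrite 1 [← X_mul_sh h1]
        ring)
  have h2 : (S2 ∩ {z : Pt ℂ (Fin 2 × Fin (m + 1)) |
      ∀ i ∈ (∅ : Finset (Fin 2 × Fin (m + 1))), z i ≠ 0}) = S2 := by
    ext z
    simp
  rw [h2, Finset.card_empty, pow_zero, mul_one, Finset.empty_union, hcard] at hfree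
  rw [hfree]
  set S3 := S2 ∩ {z : Pt ℂ (Fin 2 × Fin (m + 1)) |
    ∀ i ∈ F1, z i = algebraMap ℂ (AlgebraicClosure ℂ) 0} with hS3
  have cS3 : Constr S3 := hPm'.con.inter (Pool.Agent.W417.MT.Free.constr_eqs F1 fun _ => 0)
  have hiso : M.χ _ {z : Pt ℂ (Fin 2 × Fin (m + 1)) | P (ar z)} = M.χ _ S3 := by
    refine M.iso _ _ hPm.con cS3 (gi c k m) (fun w => jet m (psi c (ar w))) ?_
      (regularOn_poly (fun i => pf_psi c i) _) ?_ ?_ ?_ ?_
    · rintro ⟨i, j⟩
      by_cases hi : i = 0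
      · refine ((IsPF.coord (0, j)).isRF _).congr fun z _ => ?_
        unfold gi
        rw [if_pos hi]
      · by_cases hj : (j : ℕ) ≤ m - k
        · have hpa : ∀ i : Fin 2, IsRA {z : Pt ℂ (Fin 2 × Fin (m + 1)) | P (ar z)}
              fun z => sh k (ar z i) := by
            intro i j
            by_cases h : j + k < m + 1
            · refine ((IsPF.coord (i, ⟨j + k, h⟩)).isRF _).congr fun z _ => ?_
              rw [coeff_sh, coeff_ar, dif_pos h]
            · refine (IsPF.zero.isRF _).congr fun z _ => ?_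
              rw [coeff_sh, coeff_ar, dif_neg h]
          have hra : IsRA {z : Pt ℂ (Fin 2 × Fin (m + 1)) | P (ar z)} fun z =>
              sh k (ar z 1) * (sh k (ar z 0))⁻¹ := by
            refine ra_mul (hpa 1) (ra_inv (hpa 0) fun z hz => ?_)
            rw [coeff_sh, Nat.zero_add]
            exact (hPk _ hz).2.1
          have hc : IsRF {z : Pt ℂ (Fin 2 × Fin (m + 1)) | P (ar z)} fun z =>
              PowerSeries.coeff (j : ℕ) (cc c) := by
            have := (IsPA.C (IsPF.const (K := ℂ) (ι := Fin 2 × Fin (m + 1)) c)) (j : ℕ)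
            exact this.isRF _
          refine ((hra j).sub hc).congr fun z _ => ?_
          unfold gi
          rw [if_neg hi, if_pos hj]
          unfold wv
          rw [map_sub]
        · refine (IsPF.zero.isRF _).congr fun z _ => ?_
          unfold gi
          rw [if_neg hi, if_neg hj]
    · intro z hz
      obtain ⟨h3, h4, h5⟩ := hPk _ hz
      refine ⟨?_, fun x hx => ?_⟩
      · exact (hPm.det _ _ fun i => key_g c hkm z h3 h4 h5 i).2 hz
      · obtain ⟨h6, h7⟩ := (hmF x).1 hx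
        rw [map_zero]
        unfold gi
        rw [if_neg (by rw [h6]; simp), if_neg (by omega)]
    · intro w hw
      change P (ar (jet m (psi c (ar w))))
      exact (hPm.det _ _ fun i => cg_jet m _ i).1 hw.1
    · intro z hz
      obtain ⟨h3, h4, h5⟩ := hPk _ hz
      rw [← jet_ar z]
      funext ⟨i, j⟩
      have h6 := key_g c hkm z h3 h4 h5 i (j : ℕ) (by omega)
      change PowerSeries.coeff (j : ℕ) (psi c (ar (gi c k m (jet m (ar z)))) i) =
        PowerSeries.coeff (j : ℕ) (ar z i)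
      rw [jet_ar]
      exact h6
    · intro w hw
      obtain ⟨h3, h4⟩ := hP2 w hw.1
      funext ⟨i, j⟩
      unfold gi
      by_cases hi : i = 0
      · rw [if_pos hi, hi]
        change PowerSeries.coeff (j : ℕ) (ar w 0) = w (0, j)
        rw [coeff_ar, dif_pos j.2]
      · have hi1 : i = 1 := by omega
        rw [if_neg hi]
        by_cases hj : (j : ℕ) ≤ m - k
        · rw [if_pos hj, key_f c hkm w h3 h4 (j : ℕ) hj, coeff_ar, dif_pos j.2, hi1]
        · rw [if_neg hj]
          have h5 := hw.2 (i, j) ((hmF _).2 ⟨hi1, by simp only; omega⟩)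
          rw [map_zero] at h5
          exact h5.symm
  rw [hiso]
  have h9 : M.L ^ k * v ^ k = 1 := by rw [← mul_pow, hv, one_pow]
  linear_combination (-(M.χ _ S3 * v ^ (2 * (m + 1)))) * h9

end Pool.Agent.Q190.QM
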