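import Pool.Agent.Q190.QM.V2

set_option autoImplicit false
set_option linter.unusedSectionVars false
set_option linter.unusedVariables false

/-! # Project QM, job 6370: the volumes for given orders of the coordinates, and of `Er S k` -/

namespace Pool.Agent.Q190.QM

open MvPolynomial Pool.Agent.W428.MOT Pool.Agent.TH192.MT Pool.Agent.TH192.DT Pool.Agent.Q49.CO
open Pool.Agent.W574.SM (chart chartI)
open Pool.Agent.Q57.QM

theorem cyl1_OC (a k : ℕ) : Cyl (C1 (OC a k)) k := by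
  unfold C1 OC
  by_cases ha : a = 0
  · simp only [if_pos ha]
    exact (Cyl.const (k = 0) k).and (Cyl.vnX 0 (by omega))
  · simp only [if_neg ha]
    exact (Cyl.const (1 ≤ k) k).and ((Cyl.vnX 0 (by omega)).and (Cyl.c0 0 le_rfl).not)

theorem vol1_OC {R : Type} [CommRing R] (M : Meas ℂ R) {v : R} (hv : M.L * v = 1) (a k : ℕ) :
    vo M v (C1 (OC a k)) = bx M v a k := by
  unfold bx
  by_cases ha : a = 0
  · rw [if_pos ha]
    by_cases hk : k = 0
    · rw [if_pos hk]
      have h1 := vol1_vn M hv 1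
      rw [pow_one] at h1
      refine Eq.trans (vo_congr M fun γ => ?_) h1
      unfold C1 OC
      rw [if_pos ha]
      exact ⟨fun h => h.2, fun h => ⟨hk, h⟩⟩
    · rw [if_neg hk]
      refine vo_false M hv fun γ h => ?_
      unfold C1 OC at h
      rw [if_pos ha] at h
      exact hk h.1
  · rw [if_neg ha]
    by_cases hk : k = 0
    · rw [if_pos hk]
      refine vo_false M hv fun γ h => ?_
      unfold C1 OC at h
      rw [if_neg ha] at h
      have := h.1
      omega
    · rw [if_neg hk, ← vol1_ord M hv]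
      refine vo_congr M fun γ => ?_
      unfold C1 OC
      rw [if_neg ha]
      exact ⟨fun h => h.2, fun h => ⟨by omega, h⟩⟩

theorem qm_box : StBox := by
  intro R _ M v hv a0 k0 a1 k1
  rw [vo_prod M hv (cyl1_OC a0 k0) (cyl1_OC a1 k1), vol1_OC M hv, vol1_OC M hv]

theorem cyl_Er (S : Finset ℂ) (k : ℕ) : Cyl (Er S k) k := by
  unfold Er
  refine (Cyl.vnX 0 (by omega)).and ((Cyl.c0 0 le_rfl).not.and ((Cyl.vnX 1 (by omega)).and ?_))
  have h1 : ∀ c : ℂ, Cyl (fun γ : Arc ℂ (Fin 2) => PowerSeries.coeff k (γ 1) =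
      algebraMap ℂ (AlgebraicClosure ℂ) c * PowerSeries.coeff k (γ 0)) k := by
    intro c
    refine (Cyl.of_constr (q := k) (S := {z : Pt ℂ (Fin 2 × Fin (k + 1)) |
      z (1, ⟨k, by omega⟩) = algebraMap ℂ _ c * z (0, ⟨k, by omega⟩)})
      (Constr.eq (IsPF.coord _) ((IsPF.const _).mul (IsPF.coord _)))).congr fun γ => ?_
    exact Iff.rfl
  refine (Cyl.exFinset S fun c _ => h1 c).not.congr fun γ => ?_
  constructor
  · intro h c hc h'
    exact h ⟨c, hc, h'⟩
  · rintro h ⟨c, hc, h'⟩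
    exact h c hc h'

theorem qm_ervol : StErVol := by
  intro R _ M v hv S k
  obtain ⟨_, h1⟩ := qm_blowvol M v hv (Er S k) k k 0 (cyl_Er S k)
    fun γ h => ⟨h.1, h.2.1, h.2.2.1⟩
  rw [h1]
  have h2 : vo M v (fun δ => Er S k (psi 0 δ)) = vo M v (fun γ : Arc ℂ (Fin 2) =>
      (Vn k (γ 0) ∧ PowerSeries.coeff k (γ 0) ≠ 0) ∧
        ∀ c ∈ S, PowerSeries.coeff 0 (γ 1) ≠ algebraMap ℂ _ c) := by
    refine vo_congr M fun γ => ?_
    unfold Er
    rw [psi0, psi1]
    have h3 : cc 0 = 0 := by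
      unfold cc
      rw [map_zero, map_zero]
    rw [h3, zero_add]
    have h4 : Vn k (γ 0) → PowerSeries.coeff k (γ 0 * γ 1) =
        PowerSeries.coeff 0 (γ 1) * PowerSeries.coeff k (γ 0) := by
      intro h
      rw [mul_comm]
      exact coeff_mul_vn _ h
    constructor
    · rintro ⟨h5, h6, h7, h8⟩
      refine ⟨⟨h5, h6⟩, fun c hc h9 => h8 c hc ?_⟩
      rw [h4 h5, h9]
    · rintro ⟨⟨h5, h6⟩, h7⟩
      refine ⟨h5, h6, ?_, fun c hc h8 => h7 c hc ?_⟩
      · rw [mul_comm]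
        exact vn_mul _ h5
      · rw [h4 h5] at h8
        exact mul_right_cancel₀ h6 h8
  rw [h2, vo_prod M hv (P0 := fun u => Vn k u ∧ PowerSeries.coeff k u ≠ 0)
    (P1 := fun u => ∀ c ∈ S, PowerSeries.coeff 0 u ≠ algebraMap ℂ _ c)
    ((Cyl.vnX 0 (show k ≤ k + 1 by omega)).and (Cyl.c0 0 le_rfl).not) (cyl_off S),
    vol1_ord M hv, vol1_off M hv]
  ring

end Pool.Agent.Q190.QM
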