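import Pool.Agent.Q190.QM.V3
import Pool.Agent.Q57.MC.Vol2
import Pool.Agent.Q57.MD.FVol

set_option autoImplicit false
set_option linter.unusedSectionVars false
set_option linter.unusedVariables false

/-! # Project QM, job 6371: the volumes for a smooth curve transversal to `x = 0` -/

namespace Pool.Agent.Q190.QM

open MvPolynomial Pool.Agent.W428.MOT Pool.Agent.TH192.MT Pool.Agent.TH192.DT Pool.Agent.Q49.CO
open Pool.Agent.W574.SM (chart chartI)
open Pool.Agent.Q57.QM Pool.Agent.Q57.MC Pool.Agent.Q57.MD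

theorem vn_pow {k N : ℕ} (hN : N ≠ 0) (u : PS) : Vn (k * N) (u ^ N) ↔ Vn k u := by
  rw [vn_iff, vn_iff, pow_mul]
  exact IsIntegrallyClosed.pow_dvd_pow_iff hN

theorem constr_zero2 : Constr ({0} : Set (Pt ℂ (Fin 2))) := by
  have h1 : ({0} : Set (Pt ℂ (Fin 2))) = {z | ∀ i, z i = algebraMap ℂ _ 0} := by
    ext z
    rw [Set.mem_singleton_iff]
    change z = 0 ↔ ∀ i, z i = algebraMap ℂ _ 0
    rw [map_zero, funext_iff]
    rfl
  rw [h1]
  exact Constr.all fun i => Constr.eq (IsPF.coord i) (IsPF.const _)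

theorem chi_zero2 {R : Type} [CommRing R] (M : Meas ℂ R) :
    M.χ _ ({0} : Set (Pt ℂ (Fin 2))) = 1 := by
  have h1 : ({0} : Set (Pt ℂ (Fin 2))) = {z | ∀ i, z i = algebraMap ℂ _ 0} := by
    ext z
    rw [Set.mem_singleton_iff]
    change z = 0 ↔ ∀ i, z i = algebraMap ℂ _ 0
    rw [map_zero, funext_iff]
    rfl
  rw [h1]
  exact chi_pt M fun _ => 0

theorem aeval_at0 (p : MvPolynomial (Fin 2) ℂ) :
    aeval (0 : Pt ℂ (Fin 2)) p = algebraMap ℂ _ (constantCoeff p) := by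
  rw [MvPolynomial.aeval_zero]

theorem qm_curvevol : StCurveVol := by
  intro R _ M v hv h h0 h1 k N hk hN
  set F : Fin 2 → MvPolynomial (Fin 2) ℂ := ![X 0 ^ N, X 1 ^ k] with hF
  set a : Fin 2 → MvPolynomial (Fin 2) ℂ := ![X 0, h] with ha
  have hI : Indep a ({0} : Set (Pt ℂ (Fin 2))) := by
    intro z hz
    rw [Set.mem_singleton_iff] at hz
    subst hz
    refine ⟨fun t => ?_, fun l hl => ?_⟩
    · rw [aeval_at0]
      fin_cases t
      · change algebraMap ℂ _ (constantCoeff (X 0 : MvPolynomial (Fin 2) ℂ)) = 0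
        rw [constantCoeff_X, map_zero]
      · change algebraMap ℂ _ (constantCoeff h) = 0
        rw [h0, map_zero]
    · have h2 := hl 1
      have h3 := hl 0
      rw [Fin.sum_univ_two] at h2 h3
      change l 0 * aeval (0 : Pt ℂ (Fin 2)) (pderiv 1 (X 0)) +
        l 1 * aeval (0 : Pt ℂ (Fin 2)) (pderiv 1 h) = 0 at h2
      change l 0 * aeval (0 : Pt ℂ (Fin 2)) (pderiv 0 (X 0)) +
        l 1 * aeval (0 : Pt ℂ (Fin 2)) (pderiv 0 h) = 0 at h3
      rw [pderiv_X_of_ne (by decide), map_zero, mul_zero, zero_add, aeval_at0] at h2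
      have h4 : l 1 = 0 := by
        rcases mul_eq_zero.1 h2 with h5 | h5
        · exact h5
        · exfalso
          exact h1 ((map_eq_zero_iff _ (algebraMap ℂ (AlgebraicClosure ℂ)).injective).1 h5)
      rw [h4, zero_mul, add_zero, pderiv_X_self, map_one, mul_one] at h3
      intro t
      fin_cases t
      · exact h3
      · exact h4
  have hw : ∀ z ∈ ({0} : Set (Pt ℂ (Fin 2))), aeval z (1 : MvPolynomial (Fin 2) ℂ) ≠ 0 := by
    intro z _
    rw [map_one]
    exact one_ne_zero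
  have hvc := vol_chart M hv (fun j => aeval a (F j)) a F 1 (same_one F a) constr_zero2 hI hw (k * N)
  have hv2 : v ^ 2 * M.L ^ 2 = 1 := by
    rw [← mul_pow, mul_comm, hv, one_pow]
  rw [chi_zero2, one_mul, Fintype.card_fin, hv2, one_mul, vol_eq_vo M hv _ constr_zero2,
    vol_eq_vo M hv _ constr_zero2] at hvc
  have hz : ∀ γ : Arc ℂ (Fin 2), ((fun i => PowerSeries.coeff 0 (γ i)) ∈
      ({0} : Set (Pt ℂ (Fin 2)))) ↔ (Vn 1 (γ 0) ∧ Vn 1 (γ 1)) := by
    intro γ
    rw [Set.mem_singleton_iff, funext_iff, Fin.forall_fin_two]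
    refine and_congr ?_ ?_
    · exact ⟨fun h j hj => by
        rw [show j = 0 by omega]
        exact h, fun h => h 0 (by omega)⟩
    · exact ⟨fun h j hj => by
        rw [show j = 0 by omega]
        exact h, fun h => h 0 (by omega)⟩
  have hA : vo M v (fun γ : Arc ℂ (Fin 2) => Vn k (γ 0) ∧ Vn 1 (γ 1) ∧ Vn N (aeval γ h)) =
      vo M v (fun γ : Arc ℂ (Fin 2) => (fun i => PowerSeries.coeff 0 (γ i)) ∈
        ({0} : Set (Pt ℂ (Fin 2))) ∧ ∀ j, Vn (k * N) (aeval γ (aeval a (F j)))) := by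
    refine vo_congr M fun γ => ?_
    rw [hz, Fin.forall_fin_two]
    have h5 : aeval γ (aeval a (F 0)) = γ 0 ^ N := by
      change aeval γ (aeval a (X 0 ^ N)) = _
      rw [map_pow, aeval_X, map_pow]
      change (aeval γ (X 0)) ^ N = _
      rw [aeval_X]
    have h6 : aeval γ (aeval a (F 1)) = (aeval γ h) ^ k := by
      change aeval γ (aeval a (X 1 ^ k)) = _
      rw [map_pow, aeval_X, map_pow]
      rfl
    rw [h5, h6, vn_pow (by omega), mul_comm k N, vn_pow (by omega)]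
    constructor
    · rintro ⟨h7, h8, h9⟩
      exact ⟨⟨vn_mono h7 hk, h8⟩, h7, h9⟩
    · rintro ⟨⟨_, h8⟩, h7, h9⟩
      exact ⟨h7, h8, h9⟩
  have hB : vo M v (fun γ : Arc ℂ (Fin 2) => Vn k (γ 0) ∧ Vn N (γ 1)) =
      vo M v (fun γ : Arc ℂ (Fin 2) => (fun i => PowerSeries.coeff 0 (γ i)) ∈
        ({0} : Set (Pt ℂ (Fin 2))) ∧ ∀ j, Vn (k * N) (aeval γ (F j))) := by
    refine vo_congr M fun γ => ?_
    rw [hz, Fin.forall_fin_two]
    have h5 : aeval γ (F 0) = γ 0 ^ N := by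
      change aeval γ (X 0 ^ N) = _
      rw [map_pow, aeval_X]
    have h6 : aeval γ (F 1) = γ 1 ^ k := by
      change aeval γ (X 1 ^ k) = _
      rw [map_pow, aeval_X]
    rw [h5, h6, vn_pow (by omega), mul_comm k N, vn_pow (by omega)]
    constructor
    · rintro ⟨h7, h8⟩
      exact ⟨⟨vn_mono h7 hk, vn_mono h8 hN⟩, h7, h8⟩
    · rintro ⟨_, h7, h9⟩
      exact ⟨h7, h9⟩
  rw [hA, hvc, ← hB, vo_prod M hv (P0 := Vn k) (P1 := Vn N)
    (Cyl.vnX 0 (show k ≤ k + 1 by omega)) (Cyl.vnX 0 (show N ≤ N + 1 by omega)), vol1_vn M hv,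
    vol1_vn M hv, pow_add]

end Pool.Agent.Q190.QM
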