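import Pool.Agent.Q57.QM.Stm

set_option autoImplicit false
set_option linter.unusedSectionVars false
set_option linter.unusedVariables false

/-! # Project QM, job 6368: windows, exchange of the variables, arcs of high order -/

namespace Pool.Agent.Q190.QM

open MvPolynomial Pool.Agent.W428.MOT Pool.Agent.TH192.MT Pool.Agent.TH192.DT Pool.Agent.Q49.CO
open Pool.Agent.W574.SM (chart chartI)
open Pool.Agent.Q57.QM

variable {R : Type} [CommRing R] (M : Meas ℂ R) {v : R}

/-- the conditions `OC` are conditions on finitely many coefficients -/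
theorem cyl_OC (a k : ℕ) (i : Fin 2) :
    Cyl (fun γ : Arc ℂ (Fin 2) => OC a k (γ i)) k := by
  unfold OC
  by_cases ha : a = 0
  · simp only [if_pos ha]
    exact (Cyl.const (k = 0) k).and (Cyl.vnX i (by omega))
  · simp only [if_neg ha]
    exact (Cyl.const (1 ≤ k) k).and ((Cyl.vnX i (by omega)).and (Cyl.c0 i le_rfl).not)

theorem cyl_Rg {ι : Type} [Finite ι] (g : ι → MvPolynomial (Fin 2) ℂ) (a0 k0 a1 k1 : ℕ)
    {Q : Arc ℂ (Fin 2) → Prop} {q : ℕ} (hQ : Cyl Q q) (N : ℕ) :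
    Cyl (Rg g a0 k0 a1 k1 Q N) (q + k0 + k1 + N) := by
  unfold Rg
  exact (hQ.mono (by omega)).and (((cyl_OC a0 k0 0).mono (by omega)).and
    (((cyl_OC a1 k1 1).mono (by omega)).and (Cyl.all fun j => Cyl.vn (g j) (by omega))))

theorem OC_zero {k : ℕ} (hk : k ≠ 0) (u : PowerSeries (AlgebraicClosure ℂ)) : ¬ OC 0 k u := by
  unfold OC
  rw [if_pos rfl]
  exact fun h => hk h.1

theorem dv_zero (hv : M.L * v = 1) {ι : Type} (g : ι → MvPolynomial (Fin 2) ℂ)
    (a0 n0 a1 n1 : ℕ) (Q : Arc ℂ (Fin 2) → Prop) (k0 k1 N : ℕ) (h : N < k0 ∨ N < k1) :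
    dv M v g a0 n0 a1 n1 Q k0 k1 N = 0 := by
  unfold dv
  by_cases h0 : a0 = 0 ∧ k0 ≠ 0
  · obtain ⟨rfl, hk⟩ := h0
    rw [vo_false M hv fun γ hγ => OC_zero hk _ hγ.2.1,
      vo_false M hv fun γ hγ => OC_zero hk _ hγ.2.1, sub_zero, mul_zero]
  by_cases h1 : a1 = 0 ∧ k1 ≠ 0
  · obtain ⟨rfl, hk⟩ := h1
    rw [vo_false M hv fun γ hγ => OC_zero hk _ hγ.2.2.1,
      vo_false M hv fun γ hγ => OC_zero hk _ hγ.2.2.1, sub_zero, mul_zero]
  have h2 : N + 1 ≤ a0 * k0 + a1 * k1 := by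
    rcases h with h | h
    · have h3 : 1 ≤ a0 := by
        by_contra h4
        exact h0 ⟨by omega, by omega⟩
      have h4 : 1 * k0 ≤ a0 * k0 := Nat.mul_le_mul_right _ h3
      omega
    · have h3 : 1 ≤ a1 := by
        by_contra h4
        exact h1 ⟨by omega, by omega⟩
      have h4 : 1 * k1 ≤ a1 * k1 := Nat.mul_le_mul_right _ h3
      omega
  have h5 : N - (a0 * k0 + a1 * k1) = 0 := by omega
  have h6 : N + 1 - (a0 * k0 + a1 * k1) = 0 := by omega
  rw [h5, h6, sub_self, mul_zero]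

theorem qm_win : StWin := by
  intro R _ M v hv r g a0 n0 a1 n1 Q B N hB
  unfold sv
  congr 1
  have h1 : ∀ k0, ∑ k1 ∈ Finset.range B, dv M v g a0 n0 a1 n1 Q k0 k1 N =
      ∑ k1 ∈ Finset.range (N + 1), dv M v g a0 n0 a1 n1 Q k0 k1 N := by
    intro k0
    refine (Finset.sum_subset (Finset.range_mono hB) fun k hk hk' => ?_).symm
    rw [Finset.mem_range] at hk'
    exact dv_zero M hv g a0 n0 a1 n1 Q k0 k N (Or.inr (by omega))
  simp only [h1]
  refine (Finset.sum_subset (Finset.range_mono hB) fun k hk hk' => ?_).symm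
  rw [Finset.mem_range] at hk'
  exact Finset.sum_eq_zero fun k1 _ => dv_zero M hv g a0 n0 a1 n1 Q k k1 N (Or.inl (by omega))

/-- the volume does not depend on the names of the coordinates -/
theorem cyl_perm {σ : Type} {P : Arc ℂ σ → Prop} {q : ℕ} (hP : Cyl P q) (e : σ ≃ σ) :
    Cyl (fun γ => P fun i => γ (e i)) q where
  det := fun γ δ h => hP.det _ _ fun i => h (e i)
  con := by
    have h1 := hP.con.preimage (fun (z : Pt ℂ (σ × Fin (q + 1))) (x : σ × Fin (q + 1)) =>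
      z (e x.1, x.2)) fun i => IsPF.coord _
    exact h1

theorem vo_perm (hv : M.L * v = 1) {σ : Type} [Fintype σ] {P : Arc ℂ σ → Prop} {q : ℕ}
    (hP : Cyl P q) (e : σ ≃ σ) : vo M v (fun γ => P fun i => γ (e i)) = vo M v P := by
  rw [vo_eq M hv hP, vo_eq M hv (cyl_perm hP e)]
  unfold vq
  congr 1
  refine M.iso _ _ (cyl_perm hP e).con hP.con (fun z x => z (e x.1, x.2))
    (fun z x => z (e.symm x.1, x.2)) (regularOn_poly (fun i => IsPF.coord _) _)
    (regularOn_poly (fun i => IsPF.coord _) _) ?_ ?_ ?_ ?_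
  · intro z hz
    exact hz
  · intro w hw
    change P (fun i => ar (fun x : σ × Fin (q + 1) => w (e.symm x.1, x.2)) (e i))
    have h1 : (fun i => ar (fun x : σ × Fin (q + 1) => w (e.symm x.1, x.2)) (e i)) = ar w := by
      funext i
      ext k
      rw [coeff_ar, coeff_ar]
      simp only [Equiv.symm_apply_apply]
    rw [h1]
    exact hw
  · intro z _
    funext x
    simp only [Equiv.apply_symm_apply]
  · intro z _
    funext x
    simp only [Equiv.symm_apply_apply]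

theorem qm_swap : StSwap := by
  intro R _ M v hv r g a0 n0 a1 n1 Q q hQ B N
  have key : ∀ k0 k1 N', vo M v (Rg (sw g) a1 k0 a0 k1
      (fun γ => Q fun i => γ (Equiv.swap 0 1 i)) N') = vo M v (Rg g a0 k1 a1 k0 Q N') := by
    intro k0 k1 N'
    rw [← vo_perm M hv (cyl_Rg g a0 k1 a1 k0 hQ N') (Equiv.swap 0 1)]
    refine vo_congr M fun γ => ?_
    have h0 : γ (Equiv.swap (0 : Fin 2) 1 0) = γ 1 := by rw [Equiv.swap_apply_left]
    have h1 : γ (Equiv.swap (0 : Fin 2) 1 1) = γ 0 := by rw [Equiv.swap_apply_right]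
    have h2 : ∀ j, aeval γ (sw g j) = aeval (fun i => γ (Equiv.swap 0 1 i)) (g j) := by
      intro j
      unfold sw
      rw [aeval_rename]
      rfl
    unfold Rg
    simp only [h0, h1, h2]
    tauto
  unfold sv
  congr 1
  rw [Finset.sum_comm]
  refine Finset.sum_congr rfl fun k0 _ => Finset.sum_congr rfl fun k1 _ => ?_
  unfold dv
  rw [key, key]
  have h3 : a1 * k1 + a0 * k0 = a0 * k0 + a1 * k1 := Nat.add_comm _ _
  have h4 : (n1 - 1) * k1 + (n0 - 1) * k0 = (n0 - 1) * k0 + (n1 - 1) * k1 := Nat.add_comm _ _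
  rw [h3, h4]

theorem qm_tail : StTail := by
  intro R _ M v hv r g gc m hm hg a0 n0 a1 n1 B B' N hB
  have hg0 : ∀ j, coeff 0 (g j) = 0 := by
    intro j
    have h1 := congrArg (aeval (fun _ : Fin 2 => (0 : ℂ))) (hg j)
    rw [map_mul, map_pow, aeval_X, zero_pow (by omega), zero_mul, ← AlgHom.comp_apply] at h1
    have h2 : (aeval (fun _ : Fin 2 => (0 : ℂ))).comp (aeval (chart 0)) =
        aeval (fun _ : Fin 2 => (0 : ℂ)) := by
      refine MvPolynomial.algHom_ext fun i => ?_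
      rw [AlgHom.comp_apply, aeval_X, aeval_X]
      unfold Pool.Agent.W574.SM.chart
      fin_cases i <;> simp
    rw [h2] at h1
    have h3 : aeval (fun _ : Fin 2 => (0 : ℂ)) (g j) = constantCoeff (g j) := by
      rw [show (fun _ : Fin 2 => (0 : ℂ)) = (0 : Fin 2 → ℂ) from rfl, MvPolynomial.aeval_zero]
      rfl
    rw [h3] at h1
    exact h1
  have key : ∀ γ : Arc ℂ (Fin 2), Vn B (γ 0) ∧ Vn B (γ 1) → ∀ j, ∀ N' ≤ N + 1,
      Vn N' (aeval γ (g j)) := by
    intro γ hγ j N' hN'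
    have h1 : (PowerSeries.X ^ B) ^ 1 ∣ aeval γ (g j) := by
      refine Pool.Agent.Q57.MD.dvd_of_ZN (g j) 1 ?_ _ _ ?_
      · intro m hm
        have h2 : m = 0 := by
          rw [← Finsupp.degree_eq_zero_iff]
          omega
        rw [h2]
        exact hg0 j
      · intro i
        fin_cases i
        · exact vn_iff.1 hγ.1
        · exact vn_iff.1 hγ.2
    rw [pow_one] at h1
    exact vn_mono (vn_iff.2 h1) (by omega)
  unfold sv
  have h5 : ∀ k0 k1, dv M v g a0 n0 a1 n1 (fun γ => Vn B (γ 0) ∧ Vn B (γ 1)) k0 k1 N = 0 := by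
    intro k0 k1
    unfold dv
    have h6 : vo M v (Rg g a0 k0 a1 k1 (fun γ => Vn B (γ 0) ∧ Vn B (γ 1))
        (N - (a0 * k0 + a1 * k1))) = vo M v (Rg g a0 k0 a1 k1
          (fun γ => Vn B (γ 0) ∧ Vn B (γ 1)) (N + 1 - (a0 * k0 + a1 * k1))) := by
      refine vo_congr M fun γ => ?_
      unfold Rg
      constructor
      · rintro ⟨h1, h2, h3, h4⟩
        exact ⟨h1, h2, h3, fun j => key γ h1 j _ (by omega)⟩
      · rintro ⟨h1, h2, h3, h4⟩
        exact ⟨h1, h2, h3, fun j => key γ h1 j _ (by omega)⟩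
    rw [h6, sub_self, mul_zero]
  simp only [h5, Finset.sum_const_zero, mul_zero]

end Pool.Agent.Q190.QM
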